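import Pool.Agent.Helper12.MA.StB

/-!
# Project MA, module PAI

A face `Γ` of `G` on `{t, v}ᶜ` through `z` (`t ≠ v, z, p, q`) contains exactly two of `p, q, r, r'`; in the cases of
neighbouring pairs it contains the side between them (without `t`).
-/

set_option autoImplicit false

namespace Pool.Agent.Helper94.MA

open Pool.Agent.Helper12.MA
open Pool.Agent.Helper51.AJ (IsMinor Planar Apex ExMinor Con Tch)
open Pool.Agent.Helper12.NK (rst Kc add cnt Pcy IsFace Cof plus)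

/-- a connected set not containing both ends of the edge `p q` stays connected without this edge -/
private theorem con_dl {V : Type} {G : SimpleGraph V} {p q : V} {S : Set V} (h : p ∉ S ∨ q ∉ S) (hc : Con G S) :
    Con (dl G p q) S := by
  have e : (dl G p q).induce S = G.induce S := by
    ext a b
    constructor
    · intro k
      exact k.1
    · intro k
      refine ⟨k, ?_, ?_⟩
      · rintro ⟨h1, h2⟩
        rcases h with h | h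
        · exact h (h1 ▸ a.2)
        · exact h (h2 ▸ b.2)
      · rintro ⟨h1, h2⟩
        rcases h with h | h
        · exact h (h2 ▸ b.2)
        · exact h (h1 ▸ a.2)
  unfold Pool.Agent.Helper51.AJ.Con at *
  rw [e]
  exact hc

/-- the case `p, r` -/
private theorem side (hFAX : StFAX) (hFAY : StFAY) (hPCL : StPCL) (hRIM : StRIM) {V : Type} [Finite V]
    {G : SimpleGraph V} {z v p q r r' : V} {f1 f2 f3 f4 : Set V} (C : Cfg G z v p q r r' f1 f2 f3 f4) {t : V}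
    {Γ : Set V} (tq : t ≠ q) (hΓ : IsFace G {t, v}ᶜ Γ) (hz : z ∈ Γ) (hp : p ∈ Γ) (hr : r ∈ Γ) (hq : q ∉ Γ) :
    f1 \ {t} ⊆ Γ ∧ (t ∉ f1 → Γ = f1) := by
  obtain ⟨hsub, -, hcon, -, -, hcyc⟩ := hFAX V G _ Γ hΓ
  obtain ⟨hsub1, -, -, hnb1, -, -⟩ := hFAX V (dl G p q) _ f1 C.i1
  have hvΓ : v ∉ Γ := fun h => hsub h (Or.inr rfl)
  have hzp : p ≠ z := fun h => G.ne_of_adj ((C.ds.nb p).2 (Or.inr (Or.inl rfl))) h.symm
  have hzr : r ≠ z := fun h => G.ne_of_adj ((C.ds.nb r).2 (Or.inr (Or.inr (Or.inr (Or.inl rfl))))) h.symm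
  obtain ⟨P1, P2, P3, -, -, -⟩ := hPCL V (dl G p q) {v}ᶜ
  have main : f1 \ {t} ⊆ Γ := by
    rintro x ⟨hx1, hxt⟩
    by_contra hxΓ
    have hxt' : x ≠ t := hxt
    have hxv : x ≠ v := hsub1 hx1
    have hL : PC (dl G p q) {v}ᶜ ({t, v}ᶜ \ Γ) ∅ := by
      apply P1
      · rintro y ⟨hy, -⟩ hyv
        exact hy (Or.inr hyv)
      · exact con_dl (Or.inl fun h => h.2 hp) hcon
    have hL' : PC (dl G p q) {v}ᶜ (({t, v}ᶜ \ Γ) ∪ ∅) (∅ ∪ {f1}) := by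
      apply P3 _ _ _ _ hL (P2 f1 C.i1)
      refine Or.inr (Or.inl ⟨x, ⟨?_, hxΓ⟩, f1, rfl, C.i1, hx1⟩)
      rintro (h | h)
      · exact hxt' h
      · exact hxv h
    have hK : PC (dl G p q) {v}ᶜ (Γ \ {z}) ∅ := by
      apply P1
      · rintro y ⟨hy, -⟩ hyv
        have : y = v := hyv
        exact hvΓ (this ▸ hy)
      · exact con_dl (Or.inr fun h => hq h.1) (hFAY V G _ Γ hΓ z hz).1
    refine hRIM V G z v p q r r' f1 f2 f3 f4 C _ _ _ _ hK hL' ?_ ?_ ?_ ?_ 0 1 2 4 (by decide) (by decide) (by decide)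
      ?_ ?_ ?_ ?_
    · rw [Set.disjoint_left]
      rintro y ⟨hy, -⟩ (⟨-, h⟩ | h)
      · exact h hy
      · exact h
    · exact Set.empty_disjoint _
    · exact fun h => h.2 rfl
    · rintro (⟨-, h⟩ | h)
      · exact h hz
      · exact h
    · exact Or.inl ⟨rfl, hp, hzp⟩
    · exact Or.inr (Or.inl ⟨rfl, Or.inr rfl⟩)
    · exact Or.inr (Or.inr (Or.inl ⟨rfl, hr, hzr⟩))
    · refine Or.inr (Or.inr (Or.inr (Or.inr (Or.inl ⟨rfl, Or.inl ⟨?_, hq⟩⟩))))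
      rintro (h | h)
      · exact tq h.symm
      · exact C.ds.ne.2.1 h.symm
  refine ⟨main, fun ht => ?_⟩
  symm
  apply hcyc
  · intro x hx
    exact main ⟨hx, fun h => ht ((show x = t from h) ▸ hx)⟩
  · exact ⟨z, C.z1⟩
  · intro a ha
    obtain ⟨b, hb, c, hc, hbc, -, -, h⟩ := hnb1 a ha
    exact ⟨b, hb, c, hc, hbc, ((h b hb).2 (Or.inl rfl)).1, ((h c hc).2 (Or.inr rfl)).1⟩

/-- PAI: a face `Γ` of `G` on `{t, v}ᶜ` through `z` contains exactly two of `p, q, r, r'` -/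
theorem hPAI (hFAX : StFAX) (hFAY : StFAY) (hFNB : StFNB) (hPCL : StPCL) (hSYM : StSYM) (hRIM : StRIM)
    (hBAS : StBAS) : StPAI := by
  intro V _ G z v p q r r' f1 f2 f3 f4 C t Γ _ _ tp tq hpl hΓ hz
  obtain ⟨hsub, -, -, hnb, -, -⟩ := hFAX V G _ Γ hΓ
  have hvΓ : v ∉ Γ := fun h => hsub h (Or.inr rfl)
  obtain ⟨-, -, -, -, npq, npr, nps, nqr, nqs, nrs⟩ := C.ds.ne
  have azp : G.Adj z p := (C.ds.nb p).2 (Or.inr (Or.inl rfl))
  have azq : G.Adj z q := (C.ds.nb q).2 (Or.inr (Or.inr (Or.inl rfl)))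
  have azr : G.Adj z r := (C.ds.nb r).2 (Or.inr (Or.inr (Or.inr (Or.inl rfl))))
  have azs : G.Adj z r' := (C.ds.nb r').2 (Or.inr (Or.inr (Or.inr (Or.inr rfl))))
  obtain ⟨C1, C2, -, -⟩ := hSYM V G z v p q r r' f1 f2 f3 f4 C
  obtain ⟨-, C3, -, -⟩ := hSYM V G z v q p r' r f3 f4 f1 f2 C1
  -- the possible pairs
  have Hpq : p ∈ Γ → q ∈ Γ → Γ = {z, p, q} := fun hp hq =>
    (hFNB V G _ ⟨(hBAS V G C.bh).2.1 t v, hpl⟩).2.2.1 Γ hΓ z hz p hp q hq azp C.ds.pq azq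
  have Hpr : p ∈ Γ → r ∈ Γ → q ∉ Γ → f1 \ {t} ⊆ Γ ∧ (t ∉ f1 → Γ = f1) := fun hp hr hq =>
    side hFAX hFAY hPCL hRIM C tq hΓ hz hp hr hq
  have Hqr : q ∈ Γ → r ∈ Γ → p ∉ Γ → f2 \ {t} ⊆ Γ ∧ (t ∉ f2 → Γ = f2) := fun hq hr hp =>
    side hFAX hFAY hPCL hRIM C3 tp hΓ hz hq hr hp
  have Hqs : q ∈ Γ → r' ∈ Γ → p ∉ Γ → f3 \ {t} ⊆ Γ ∧ (t ∉ f3 → Γ = f3) := fun hq hs hp =>
    side hFAX hFAY hPCL hRIM C1 tp hΓ hz hq hs hp
  have Hps : p ∈ Γ → r' ∈ Γ → q ∉ Γ → f4 \ {t} ⊆ Γ ∧ (t ∉ f4 → Γ = f4) := fun hp hs hq =>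
    side hFAX hFAY hPCL hRIM C2 tq hΓ hz hp hs hq
  obtain ⟨a, ha, b, hb, hab, -, -, h⟩ := hnb z hz
  have ka : a = p ∨ a = q ∨ a = r ∨ a = r' := by
    rcases (C.ds.nb a).1 ((h a ha).2 (Or.inl rfl)) with k | k
    · exact absurd (k ▸ ha) hvΓ
    · exact k
  have kb : b = p ∨ b = q ∨ b = r ∨ b = r' := by
    rcases (C.ds.nb b).1 ((h b hb).2 (Or.inr rfl)) with k | k
    · exact absurd (k ▸ hb) hvΓ
    · exact k
  have mp : p ∈ Γ → p = a ∨ p = b := fun k => (h p k).1 azp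
  have mq : q ∈ Γ → q = a ∨ q = b := fun k => (h q k).1 azq
  have mr : r ∈ Γ → r = a ∨ r = b := fun k => (h r k).1 azr
  have ms : r' ∈ Γ → r' = a ∨ r' = b := fun k => (h r' k).1 azs
  have Hx : ∀ x y w : V, w ≠ x → w ≠ y → (w ∈ Γ → w = x ∨ w = y) → w ∉ Γ := by
    intro x y w h1 h2 h3 h4
    rcases h3 h4 with h5 | h5
    · exact h1 h5
    · exact h2 h5
  rcases ka with rfl | rfl | rfl | rfl <;> rcases kb with rfl | rfl | rfl | rfl
  · exact absurd rfl hab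
  · exact Or.inl ⟨ha, hb, Hpq ha hb⟩
  · have hq := Hx _ _ _ npq.symm nqr mq
    have hs := Hx _ _ _ nps.symm nrs.symm ms
    exact Or.inr (Or.inl ⟨ha, hb, hq, hs, Hpr ha hb hq⟩)
  · have hq := Hx _ _ _ npq.symm nqs mq
    have hr := Hx _ _ _ npr.symm nrs mr
    exact Or.inr (Or.inr (Or.inr (Or.inr (Or.inl ⟨ha, hb, hq, hr, Hps ha hb hq⟩))))
  · exact Or.inl ⟨hb, ha, Hpq hb ha⟩
  · exact absurd rfl hab
  · have hp := Hx _ _ _ npq npr mp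
    have hs := Hx _ _ _ nqs.symm nrs.symm ms
    exact Or.inr (Or.inr (Or.inl ⟨ha, hb, hp, hs, Hqr ha hb hp⟩))
  · have hp := Hx _ _ _ npq nps mp
    have hr := Hx _ _ _ nqr.symm nrs mr
    exact Or.inr (Or.inr (Or.inr (Or.inl ⟨ha, hb, hp, hr, Hqs ha hb hp⟩)))
  · have hq := Hx _ _ _ nqr npq.symm mq
    have hs := Hx _ _ _ nrs.symm nps.symm ms
    exact Or.inr (Or.inl ⟨hb, ha, hq, hs, Hpr hb ha hq⟩)
  · have hp := Hx _ _ _ npr npq mp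
    have hs := Hx _ _ _ nrs.symm nqs.symm ms
    exact Or.inr (Or.inr (Or.inl ⟨hb, ha, hp, hs, Hqr hb ha hp⟩))
  · exact absurd rfl hab
  · have hp := Hx _ _ _ npr nps mp
    have hq := Hx _ _ _ nqr nqs mq
    exact Or.inr (Or.inr (Or.inr (Or.inr (Or.inr ⟨ha, hb, hp, hq⟩))))
  · have hq := Hx _ _ _ nqs npq.symm mq
    have hr := Hx _ _ _ nrs npr.symm mr
    exact Or.inr (Or.inr (Or.inr (Or.inr (Or.inl ⟨hb, ha, hq, hr, Hps hb ha hq⟩))))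
  · have hp := Hx _ _ _ nps npq mp
    have hr := Hx _ _ _ nrs nqr.symm mr
    exact Or.inr (Or.inr (Or.inr (Or.inl ⟨hb, ha, hp, hr, Hqs hb ha hp⟩)))
  · have hp := Hx _ _ _ nps npr mp
    have hq := Hx _ _ _ nqs nqr mq
    exact Or.inr (Or.inr (Or.inr (Or.inr (Or.inr ⟨hb, ha, hp, hq⟩))))
  · exact absurd rfl hab

end Pool.Agent.Helper94.MA
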